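import Pool.Agent.H916U.Decomp

/-!
The closure theorem for Tate characters of degree `m` under the condition `Cond`.
-/

namespace Pool.Agent.H916U

open Finset Pool.Agent.H916R2 Pool.Agent.H916T

/-- the base family -/
abbrev UBase (p m M : ℕ) (t : Multiset (ZMod M)) : Prop :=
  SurfaceTate p M t ∨ ∃ q : ℕ, q.Prime ∧ q ∣ m ∧ Standard q M t

lemma ubase_good {p m M : ℕ} [NeZero M] (hmM : m ∣ M) (s : Multiset (ZMod M))
    (h : UBase p m M s) : (0 : ZMod M) ∉ s ∧ Even (Multiset.card s) := by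
  rcases h with h | ⟨q, _, h1, h2⟩
  · exact ⟨h.1.1, h.1.2.1⟩
  · exact h2.good (dvd_trans h1 hmM)

lemma ubase_neg {p m M : ℕ} [NeZero M] (hmM : m ∣ M) (hp : p.Coprime M)
    (s : Multiset (ZMod M)) (h : UBase p m M s) : UBase p m M (s.map Neg.neg) := by
  rcases h with h | ⟨q, h0, h1, h2⟩
  · exact Or.inl (h.neg hp)
  · exact Or.inr ⟨q, h0, h1, h2.neg (dvd_trans h1 hmM)⟩

/-- the distribution relations for odd primes in the quotient -/
lemma uquotient_dist {p m N : ℕ} [NeZero (N * m)] {q d : ℕ} (hq : q.Prime) (hq2 : q ≠ 2)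
    (hqd : q * d = m) (a : ZMod m) :
    ∑ i ∈ range q, H916T.cQ (N * m) (UBase p m (N * m))
        (iota N (a + (i : ZMod m) * (d : ZMod m))) =
      H916T.cQ (N * m) (UBase p m (N * m)) (iota N ((q : ZMod m) * a)) := by
  have hm0 : NeZero m := ⟨fun h => NeZero.ne (N * m) (by rw [h, mul_zero])⟩
  have hqM : q * (N * d) = N * m := by rw [← hqd]; ring
  have e1 : (iota N ((q : ZMod m) * a) : ZMod (N * m)) = (q : ZMod (N * m)) * iota N a :=
    iota_natMul rfl q a
  have e2 : ∀ i : ℕ, (iota N (a + (i : ZMod m) * (d : ZMod m)) : ZMod (N * m)) =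
      iota N a + (i : ZMod (N * m)) * ((N * d : ℕ) : ZMod (N * m)) := by
    intro i
    rw [iota_add rfl]
    congr 1
    have : (i : ZMod m) * (d : ZMod m) = ((i * d : ℕ) : ZMod m) := by push_cast; rfl
    rw [this, iota_natCast rfl]
    push_cast; ring
  simp only [e1, e2]
  by_cases htriv : 2 * ((q : ZMod (N * m)) * iota N a) = 0
  · rw [cQ_half (by rw [← two_mul]; exact htriv)]
    have h := eps_dist_trivial hq hqM (iota N a) htriv
    have h5 : ∑ i ∈ range q, H916T.cQ (N * m) (UBase p m (N * m))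
        (iota N a + (i : ZMod (N * m)) * ((N * d : ℕ) : ZMod (N * m))) =
        QuotientAddGroup.mk (∑ i ∈ range q,
          eps (iota N a + (i : ZMod (N * m)) * ((N * d : ℕ) : ZMod (N * m)))) := by
      rw [QuotientAddGroup.mk_sum]
      rfl
    rw [h5, h, QuotientAddGroup.mk_zero]
  · have hne : (q : ZMod (N * m)) * iota N a ≠ 0 := fun h => htriv (by rw [h, mul_zero])
    have hMq : N * m / q = N * d := by
      rw [← hqM]; exact Nat.mul_div_cancel_left _ hq.pos
    have hstd : Standard q (N * m) (-((q : ZMod (N * m)) * iota N a) ::ₘ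
        (Multiset.range q).map fun i : ℕ =>
          iota N a + (i : ZMod (N * m)) * ((N * d : ℕ) : ZMod (N * m))) := by
      refine ⟨hq.odd_of_ne_two hq2, iota N a, hne, ?_⟩
      rw [hMq]
    have h := H916T.cQ_sum_eq_zero (H916T.Generated.ofBase (base := UBase p m (N * m)) _
      (Or.inr ⟨q, hq, Dvd.intro _ hqd, hstd⟩))
    rw [Multiset.map_cons, Multiset.sum_cons, H916T.cQ_neg, Multiset.map_map] at h
    have h6 : ((Multiset.range q).map (H916T.cQ (N * m) (UBase p m (N * m)) ∘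
        fun i : ℕ => iota N a + (i : ZMod (N * m)) * ((N * d : ℕ) : ZMod (N * m)))).sum =
        ∑ i ∈ range q, H916T.cQ (N * m) (UBase p m (N * m))
          (iota N a + (i : ZMod (N * m)) * ((N * d : ℕ) : ZMod (N * m))) := rfl
    rw [h6] at h
    exact (neg_add_eq_zero.mp h).symm

lemma sup_of_super {p m j : ℕ} [NeZero m] (h : (p : ZMod m) ^ j = -1) (a : ZMod m) : Sup p a := by
  apply sup_of_pow (j := j)
  rw [h]; ring

theorem main (p m m' e : ℕ) (hp : p.Prime) (hm : 0 < m) (he : e * m' = m)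
    (hcase : e = 1 ∨ (e = 2 ∧ ¬ 2 ∣ m')) (hpm : p.Coprime m) (hC : Cond p m') :
    ∃ N : ℕ, 0 < N ∧ p.Coprime N ∧ ∀ s : Multiset (ZMod m), IsTate p m s → s ≠ 0 →
      H916T.Generated (N * m) (UBase p m (N * m))
        (s.map fun a => ((N * a.val : ℕ) : ZMod (N * m))) := by
  have hmz : NeZero m := ⟨hm.ne'⟩
  have hm'0 : 0 < m' := Nat.pos_of_ne_zero (by rintro rfl; simp at he; omega)
  have hmz' : NeZero m' := ⟨hm'0.ne'⟩
  set f := orderOf (p : ZMod m) with hfdef
  have hf0 : 0 < f := order_pos hpm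
  have hpf : 1 < p ^ f := Nat.one_lt_pow hf0.ne' hp.one_lt
  obtain ⟨N, hN⟩ : ∃ N, p ^ f = N + 1 := ⟨p ^ f - 1, by omega⟩
  have hN0 : 0 < N := by omega
  have hmN : m ∣ N := by
    have h1 : ((p ^ f : ℕ) : ZMod m) = ((1 : ℕ) : ZMod m) := by
      push_cast; exact H916T.pow_order p
    rw [hN] at h1
    have h2 : ((N : ℕ) : ZMod m) = 0 := by push_cast at h1; linear_combination h1
    rwa [ZMod.natCast_eq_zero_iff] at h2
  have hNz : NeZero (N * m) := ⟨Nat.mul_ne_zero hN0.ne' hm.ne'⟩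
  have hpN : p.Coprime N := by
    rw [hp.coprime_iff_not_dvd]
    intro h
    have h1 : p ∣ N + 1 := by rw [← hN]; exact dvd_pow_self p hf0.ne'
    exact hp.one_lt.ne' (Nat.dvd_one.mp ((Nat.dvd_add_right h).mp h1))
  have hpM : p.Coprime (N * m) := Nat.Coprime.mul_right hpN hpm
  have hmM : m ∣ N * m := Dvd.intro_left N rfl
  refine ⟨N, hN0, hpN, ?_⟩
  intro s hs hne
  obtain ⟨g, hg, hgp, hg2, hgs⟩ := exists_g2 (c := H916T.cQ (N * m) (UBase p m (N * m))) hN
    hp.one_lt hmN hpM (fun a => H916T.cQ_neg a) (fun a ha => H916T.cQ_half ha)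
    (fun t ht => H916T.cQ_sum_eq_zero (H916T.Generated.ofBase t (Or.inl ht)))
    (fun q d hq hq2 hqd a => uquotient_dist hq hq2 hqd a)
  -- the constant value at supersingular elements
  obtain ⟨κ, hκ2, hκ⟩ : ∃ κ : (ZMod (N * m) → ℤ) ⧸ (H916T.LL (N * m) (UBase p m (N * m))),
      κ + κ = 0 ∧ ∀ a, a ≠ 0 → Sup p a → g a = κ := by
    by_cases hex : ∃ a0 : ZMod m, a0 ≠ 0 ∧ Sup p a0
    · obtain ⟨a0, ha0, hs0⟩ := hex
      have h1 := hg2 a0 a0 ha0 ha0 (fun t => by rw [hs0 t, add_zero])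
      refine ⟨g a0, h1, fun a ha hsa => ?_⟩
      have h2 := hg2 a a0 ha ha0 (fun t => by rw [hsa t, hs0 t, add_zero])
      rw [← sub_eq_zero]
      calc g a - g a0 = (g a + g a0) - (g a0 + g a0) := by abel
        _ = 0 := by rw [h1, h2, sub_zero]
    · exact ⟨0, by simp, fun a ha hsa => absurd ⟨a, ha, hsa⟩ hex⟩
  have hsum : (s.map g).sum = 0 := by
    by_cases hsuper : ∃ j : ℕ, (p : ZMod m) ^ j = -1
    · obtain ⟨j, hj⟩ := hsuper
      have h1 : s.map g = s.map fun _ => κ := by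
        apply Multiset.map_congr rfl
        intro a ha
        exact hκ a (fun h => hs.1 (h ▸ ha)) (sup_of_super hj a)
      obtain ⟨r, hr⟩ := hs.2.1
      rw [h1, Multiset.map_const', Multiset.sum_replicate, hr, add_nsmul, ← nsmul_add, hκ2,
        nsmul_zero]
    · have hno : ∀ j : ℕ, (p : ZMod m') ^ j ≠ -1 := by
        intro j hj
        apply hsuper
        rcases hcase with h | ⟨h, hodd⟩
        · subst h
          rw [one_mul] at he
          subst he
          exact ⟨j, hj⟩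
        · subst h
          subst he
          exact ⟨j, two_mul_level hodd hpm hj⟩
      have hm'1 : 1 < m' := by
        by_contra hcon
        have h1 : m' = 1 := by omega
        subst h1
        exact hno 0 (Subsingleton.elim _ _)
      have hD : Dec p m m' e := by
        rcases hcase with h | ⟨h, hodd⟩
        · subst h
          rw [one_mul] at he
          subst he
          exact dec_one hC
        · subst h
          subst he
          exact dec_two hodd hpm hC
      exact core_sum he hm'1 hpm hC hD hno hs hg hgp hκ2 hκ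
  have h0 : (0 : ZMod (N * m)) ∉ s.map (iota N : ZMod m → ZMod (N * m)) := by
    intro h'
    obtain ⟨b, hb, hb0⟩ := Multiset.mem_map.mp h'
    rw [iota_eq_zero rfl hb0] at hb
    exact hs.1 hb
  apply H916T.generated_of_cQ_sum (fun t ht => ubase_good hmM t ht)
    (fun t ht => ubase_neg hmM hpM t ht) h0
  · rw [Multiset.card_map]; exact hs.2.1
  · intro h
    exact hne (Multiset.map_eq_zero.mp h)
  · have h1 := hgs s hs.2.2.1
    rw [Multiset.map_map]
    rw [hsum] at h1
    exact h1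

lemma ordCompl_of_prime_pow {ℓ r a b : ℕ} (hℓ : ℓ.Prime) (hr : r.Prime) (hne : ℓ ≠ r) :
    ordCompl[ℓ] (ℓ ^ a * r ^ b) = r ^ b := by
  rw [Nat.factorization_mul (pow_ne_zero _ hℓ.ne_zero) (pow_ne_zero _ hr.ne_zero),
    hℓ.factorization_pow, hr.factorization_pow, Finsupp.add_apply, Finsupp.single_eq_same,
    Finsupp.single_eq_of_ne hne, add_zero]
  exact Nat.mul_div_cancel_left _ (pow_pos hℓ.pos a)

theorem cond_two_primes {p ℓ r a b : ℕ} (hℓ : ℓ.Prime) (hr : r.Prime) (hne : ℓ ≠ r)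
    (h1 : ∃ i : ℕ, (p : ZMod (ℓ ^ a)) ^ i = -1) (h2 : ∃ j : ℕ, (p : ZMod (r ^ b)) ^ j = -1) :
    Cond p (ℓ ^ a * r ^ b) := by
  intro q hq hqm
  rcases (hq.dvd_mul).mp hqm with h | h
  · have hqℓ : q = ℓ := (Nat.prime_dvd_prime_iff_eq hq hℓ).mp (hq.dvd_of_dvd_pow h)
    subst hqℓ
    rw [ordCompl_of_prime_pow hq hr hne]
    exact h2
  · have hqr : q = r := (Nat.prime_dvd_prime_iff_eq hq hr).mp (hq.dvd_of_dvd_pow h)
    subst hqr
    rw [mul_comm (ℓ ^ a), ordCompl_of_prime_pow hq hℓ hne.symm]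
    exact h1

end Pool.Agent.H916U
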