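import Pool.Agent.H916U.Gen

/-!
Balanced multisets of units: only the characters trivial on `p` matter.
-/

namespace Pool.Agent.H916U

open Finset Pool.Agent.H916R2 Pool.Agent.H916T

variable {m : ℕ}

/-- multisets of units satisfying the Stickelberger relations are balanced -/
lemma balanced_of_saw' [NeZero m] {p F : ℕ} (hp : p.Coprime m) (hF : (p : ZMod m) ^ F = 1)
    (hSS : ∀ χ : DirichletCharacter ℂ m, χ.Odd → χ (p : ZMod m) = 1 → SS χ 1 ≠ 0)
    (S : Multiset (ZMod m)ˣ)
    (hS : ∀ t : (ZMod m)ˣ, (S.map fun v : (ZMod m)ˣ =>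
      ∑ j ∈ range F, saw ((p : ZMod m) ^ j * ((t : ZMod m) * (v : ZMod m)))).sum = 0)
    (u : (ZMod m)ˣ) :
    (S.map fun v : (ZMod m)ˣ => phi p F (u : ZMod m) (v : ZMod m)).sum = 0 := by
  classical
  set P : (ZMod m)ˣ := (H916T.isUnit_p hp).unit with hP
  have hPv : ((P : (ZMod m)ˣ) : ZMod m) = (p : ZMod m) := IsUnit.unit_spec _
  -- the character sums
  let A : DirichletCharacter ℂ m → ℂ := fun χ =>
    (S.map fun v : (ZMod m)ˣ => ∑ j ∈ range F, (χ ((P ^ j * v : (ZMod m)ˣ) : ZMod m))⁻¹).sum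
  have hA : ∀ χ : DirichletCharacter ℂ m, χ.Odd → A χ = 0 := by
    intro χ hχ
    by_cases hχp : χ (p : ZMod m) = 1
    · have h1 : ∑ t : (ZMod m)ˣ, χ t * (((S.map fun v : (ZMod m)ˣ =>
        ∑ j ∈ range F, saw ((p : ZMod m) ^ j * ((t : ZMod m) * (v : ZMod m)))).sum : ℤ) : ℂ) = 0 := by
        apply sum_eq_zero
        intro t _
        rw [hS t]; simp
      have h2 : ∀ S : Multiset (ZMod m)ˣ, ∑ t : (ZMod m)ˣ, χ t * (((S.map fun v : (ZMod m)ˣ =>
        ∑ j ∈ range F, saw ((p : ZMod m) ^ j * ((t : ZMod m) * (v : ZMod m)))).sum : ℤ) : ℂ) =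
          (S.map fun v : (ZMod m)ˣ =>
            ∑ j ∈ range F, (χ ((P ^ j * v : (ZMod m)ˣ) : ZMod m))⁻¹).sum * SS χ 1 := by
        intro S
        induction S using Multiset.induction_on with
        | empty => simp
        | cons v S ih =>
          simp only [Multiset.map_cons, Multiset.sum_cons, Int.cast_add, mul_add, sum_add_distrib,
            add_mul]
          rw [ih]
          congr 1
          rw [sum_mul]
          have h3 : ∀ t : (ZMod m)ˣ, χ t * ((∑ j ∈ range F,
              saw ((p : ZMod m) ^ j * ((t : ZMod m) * (v : ZMod m))) : ℤ) : ℂ) =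
              ∑ j ∈ range F, χ t * (saw ((t : ZMod m) * ((P ^ j * v : (ZMod m)ˣ) : ZMod m)) : ℂ) := by
            intro t
            rw [Int.cast_sum, mul_sum]
            refine sum_congr rfl fun j _ => ?_
            congr 3
            rw [Units.val_mul, Units.val_pow_eq_pow_val, hPv]
            ring
          rw [sum_congr rfl fun t _ => h3 t, sum_comm]
          refine sum_congr rfl fun j _ => ?_
          have h4 := SS_unit χ (P ^ j * v) 1
          rw [mul_one] at h4
          rw [← h4]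
          rfl
      rw [h2 S] at h1
      exact (mul_eq_zero.mp h1).resolve_right (hSS χ hχ hχp)
    · have hz : ∀ v : (ZMod m)ˣ, ∑ j ∈ range F, (χ ((P ^ j * v : (ZMod m)ˣ) : ZMod m))⁻¹ = 0 := by
        intro v
        set z : ℂ := (χ (p : ZMod m))⁻¹ with hz
        have hzF : z ^ F = 1 := by
          rw [hz, inv_pow, ← map_pow, hF, map_one, inv_one]
        have hz1 : z ≠ 1 := fun h => hχp (inv_eq_one.mp h)
        have h1 : ∀ j ∈ range F, (χ ((P ^ j * v : (ZMod m)ˣ) : ZMod m))⁻¹ =
            z ^ j * (χ (v : ZMod m))⁻¹ := by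
          intro j _
          rw [Units.val_mul, Units.val_pow_eq_pow_val, hPv, map_mul, map_pow, mul_inv, hz, inv_pow]
        rw [sum_congr rfl h1, ← sum_mul]
        have h2 : (∑ j ∈ range F, z ^ j) * (z - 1) = 0 := by
          rw [geom_sum_mul, hzF, sub_self]
        rw [(mul_eq_zero.mp h2).resolve_right (sub_ne_zero.mpr hz1), zero_mul]
      simp only [A, hz]
      simp
  -- orthogonality
  have horth : ∀ S : Multiset (ZMod m)ˣ,
      ((S.map fun v : (ZMod m)ˣ => phi p F (u : ZMod m) (v : ZMod m)).sum : ℂ) *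
        (Nat.totient m : ℂ) = ∑ χ : DirichletCharacter ℂ m, χ (u : ZMod m) * (1 - χ (-1)) *
        (S.map fun v : (ZMod m)ˣ =>
          ∑ j ∈ range F, (χ ((P ^ j * v : (ZMod m)ˣ) : ZMod m))⁻¹).sum := by
    intro S
    induction S using Multiset.induction_on with
    | empty => simp
    | cons v S ih =>
      simp only [Multiset.map_cons, Multiset.sum_cons, Int.cast_add, add_mul, mul_add,
        sum_add_distrib]
      rw [ih]
      congr 1
      simp only [mul_sum]
      rw [sum_comm]
      unfold phi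
      rw [Int.cast_sum, sum_mul]
      refine sum_congr rfl fun j _ => ?_
      have h1 : ∀ b : ZMod m, ∑ χ : DirichletCharacter ℂ m,
          (χ ((P ^ j * v : (ZMod m)ˣ) : ZMod m))⁻¹ * χ b =
          if (p : ZMod m) ^ j * (v : ZMod m) = b then (Nat.totient m : ℂ) else 0 := by
        intro b
        have h2 := DirichletCharacter.sum_char_inv_mul_char_eq ℂ (P ^ j * v).isUnit b
        rw [Units.val_mul, Units.val_pow_eq_pow_val, hPv] at h2
        rw [← h2]
        refine sum_congr rfl fun χ _ => ?_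
        congr 1
        rw [Units.val_mul, Units.val_pow_eq_pow_val, hPv]
        have h3 : χ ((p : ZMod m) ^ j * (v : ZMod m)) *
            χ (((p : ZMod m) ^ j * (v : ZMod m))⁻¹) = 1 := by
          rw [← map_mul, ZMod.mul_inv_of_unit, map_one]
          exact ((H916T.isUnit_p hp).pow j).mul v.isUnit
        exact (eq_inv_of_mul_eq_one_right h3).symm
      have h4 : ∀ χ : DirichletCharacter ℂ m, χ (u : ZMod m) * (1 - χ (-1)) *
          (χ ((P ^ j * v : (ZMod m)ˣ) : ZMod m))⁻¹ =
          (χ ((P ^ j * v : (ZMod m)ˣ) : ZMod m))⁻¹ * χ (u : ZMod m) -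
            (χ ((P ^ j * v : (ZMod m)ˣ) : ZMod m))⁻¹ * χ (-(u : ZMod m)) := by
        intro χ
        have : χ (-(u : ZMod m)) = χ (-1) * χ (u : ZMod m) := by rw [← map_mul]; congr 1; ring
        rw [this]; ring
      rw [sum_congr rfl fun χ _ => h4 χ, sum_sub_distrib, h1, h1]
      push_cast
      split_ifs <;> simp
  have h5 := horth S
  have h6 : ∑ χ : DirichletCharacter ℂ m, χ (u : ZMod m) * (1 - χ (-1)) *
        (S.map fun v : (ZMod m)ˣ =>
          ∑ j ∈ range F, (χ ((P ^ j * v : (ZMod m)ˣ) : ZMod m))⁻¹).sum = 0 := by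
    apply sum_eq_zero
    intro χ _
    rcases χ.even_or_odd with he | ho
    · have h1 : χ (-1) = 1 := he
      rw [h1]; ring
    · have := hA χ ho
      simp only [A] at this
      rw [this, mul_zero]
  rw [h6] at h5
  have hφ : (Nat.totient m : ℂ) ≠ 0 := by
    exact_mod_cast (Nat.totient_pos.mpr (NeZero.pos m)).ne'
  have h7 := (mul_eq_zero.mp h5).resolve_right hφ
  exact_mod_cast h7

lemma SS_one_ne_zero' {p : ℕ} [NeZero m] (hC : Cond p m) (χ : DirichletCharacter ℂ m)
    (hχ : χ.Odd) (hχp : χ (p : ZMod m) = 1) (hp : p.Coprime m) : SS χ 1 ≠ 0 := by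
  intro h1
  obtain ⟨a, ha⟩ := exists_SS_ne_zero χ hχ
  have hcast : a = ((a.val : ℕ) : ZMod m) := (ZMod.natCast_zmod_val a).symm
  by_cases hP : PP m a.val
  · obtain ⟨S, k, hk, hS⟩ := gen_units (NeZero.pos m) _ a.val le_rfl hP
    apply ha
    have h2 := hS ℂ (SS χ) (od_SS χ)
    rw [← hcast] at h2
    rw [h2]
    have h3 : (S.map fun u : (ZMod m)ˣ => SS χ (u : ZMod m)).sum = 0 := by
      apply Multiset.sum_eq_zero
      intro x hx
      obtain ⟨u, _, rfl⟩ := Multiset.mem_map.mp hx
      have := SS_unit χ u 1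
      rw [mul_one] at this
      rw [this, h1, mul_zero]
    rw [h3, zero_add]
    by_cases h2m : 2 ∣ m
    · obtain ⟨d, hd⟩ := h2m
      have : m / 2 = d := by rw [hd]; exact Nat.mul_div_cancel_left d (by norm_num)
      rw [this, SS_half χ hd.symm, smul_zero]
    · rw [hk h2m, zero_smul]
  · obtain ⟨j, hj⟩ := pow_of_not_PP hC hP
    rw [← hcast] at hj
    set P : (ZMod m)ˣ := (H916T.isUnit_p hp).unit with hPdef
    have hPv : ((P : (ZMod m)ˣ) : ZMod m) = (p : ZMod m) := IsUnit.unit_spec _
    have h2 := SS_unit χ (P ^ j) a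
    rw [Units.val_pow_eq_pow_val, hPv, hj, SS_neg, map_pow, hχp, one_pow, inv_one, one_mul] at h2
    apply ha
    have : 2 * SS χ a = 0 := by linear_combination -h2
    simpa using this

end Pool.Agent.H916U
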