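import Pool.Agent.H916U.Bal

/-!
Decomposition of a multiset into supersingular elements and units.
-/

namespace Pool.Agent.H916U

open Finset Pool.Agent.H916R2 Pool.Agent.H916T

/-- the decomposition property -/
def Dec (p m m' e : ℕ) : Prop :=
  ∀ a : ZMod m, a ≠ 0 → Sup p a ∨ ∃ (S : Multiset (ZMod m')ˣ) (k : ℕ), (¬ 2 ∣ m → k = 0) ∧
    ∀ (Q : Type) [AddCommGroup Q] (c : ZMod m → Q), OD c →
      c a = (S.map fun u : (ZMod m')ˣ => c (iota e (u : ZMod m'))).sum +
        k • c ((m / 2 : ℕ) : ZMod m)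

lemma dec_one {p m : ℕ} [NeZero m] (hC : Cond p m) : Dec p m m 1 := by
  intro a _
  by_cases hP : PP m a.val
  · right
    obtain ⟨S, k, hk, hS⟩ := gen_units (NeZero.pos m) _ a.val le_rfl hP
    refine ⟨S, k, hk, fun Q _ c hc => ?_⟩
    have h := hS Q c hc
    rw [ZMod.natCast_zmod_val] at h
    rw [h]
    simp only [iota_one]
  · left
    obtain ⟨j, hj⟩ := pow_of_not_PP hC hP
    rw [ZMod.natCast_zmod_val] at hj
    exact sup_of_pow hj

lemma PP_double {m' x y : ℕ} (hodd : ¬ 2 ∣ m') (h : x + m' = 2 * y) : PP m' x ↔ PP m' y := by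
  unfold PP
  refine forall_congr' fun q => forall_congr' fun hq => forall_congr' fun hqm => ?_
  rw [not_iff_not]
  have h1 : ordProj[q] m' ∣ m' := Nat.ordProj_dvd m' q
  have h2 : (ordProj[q] m').Coprime 2 := by
    apply Nat.Coprime.pow_left
    rw [Nat.coprime_primes hq Nat.prime_two]
    rintro rfl
    exact hodd hqm
  constructor
  · intro hx
    have : ordProj[q] m' ∣ 2 * y := by rw [← h]; exact Nat.dvd_add hx h1
    exact h2.dvd_of_dvd_mul_left this
  · intro hy
    have : ordProj[q] m' ∣ x + m' := by rw [h]; exact hy.mul_left 2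
    exact (Nat.dvd_add_left h1).mp this

lemma dec_two {p m' : ℕ} [NeZero m'] (hodd : ¬ 2 ∣ m') (hp : p.Coprime (2 * m'))
    (hC : Cond p m') : Dec p (2 * m') m' 2 := by
  have hz : NeZero (2 * m') := ⟨Nat.mul_ne_zero two_ne_zero (NeZero.ne m')⟩
  have hhf : 2 * m' / 2 = m' := Nat.mul_div_cancel_left m' (by norm_num)
  have hm2 : (2 : ZMod (2 * m')) * (m' : ZMod (2 * m')) = 0 := by
    have : ((2 * m' : ℕ) : ZMod (2 * m')) = 0 := by simp
    rw [← this]; push_cast; ring
  -- even elements with the property `PP`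
  have heven : ∀ x : ℕ, PP m' x → ∃ (S : Multiset (ZMod m')ˣ),
      ∀ (Q : Type) [AddCommGroup Q] (c : ZMod (2 * m') → Q), OD c →
        c (iota 2 (x : ZMod m')) =
          (S.map fun u : (ZMod m')ˣ => c (iota 2 (u : ZMod m'))).sum := by
    intro x hP
    obtain ⟨S, k, hk, hS⟩ := gen_units (NeZero.pos m') _ x le_rfl hP
    refine ⟨S, fun Q _ c hc => ?_⟩
    have := hS Q (fun b => c (iota 2 b)) (hc.comp_iota rfl)
    simp only [hk hodd, zero_smul, add_zero] at this
    exact this
  intro a ha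
  by_cases h2a : 2 * a = 0
  · left
    intro t
    apply W_half
    linear_combination (t : ZMod (2 * m')) * h2a
  by_cases hpar : 2 ∣ a.val
  · obtain ⟨x, hx⟩ := hpar
    have hax : a = iota 2 (x : ZMod m') := by
      rw [iota_natCast rfl, ← hx, ZMod.natCast_zmod_val]
    by_cases hP : PP m' x
    · right
      obtain ⟨S, hS⟩ := heven x hP
      refine ⟨S, 0, fun _ => rfl, fun Q _ c hc => ?_⟩
      rw [zero_smul, add_zero, ← hS Q c hc, ← hax]
    · left
      obtain ⟨j, hj⟩ := pow_of_not_PP hC hP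
      apply sup_of_pow (j := j)
      have h1 := iota_natMul (k := 2) (m := 2 * m') rfl (p ^ j) (x : ZMod m')
      push_cast at h1
      rw [hax, ← h1, hj, iota_neg rfl]
  · set x := a.val with hx
    have hax : a = ((x : ℕ) : ZMod (2 * m')) := (ZMod.natCast_zmod_val a).symm
    obtain ⟨y, hy⟩ : 2 ∣ x + m' := by omega
    have h2a' : 2 * a = iota 2 (x : ZMod m') := by
      rw [iota_natCast rfl, hax]; push_cast; ring
    have ham : a + (m' : ZMod (2 * m')) = iota 2 (y : ZMod m') := by
      rw [iota_natCast rfl, ← hy, hax]; push_cast; ring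
    by_cases hP : PP m' x
    · right
      have hPy : PP m' y := (PP_double hodd hy).mp hP
      obtain ⟨S1, hS1⟩ := heven x hP
      obtain ⟨S2, hS2⟩ := heven y hPy
      refine ⟨S1 + S2.map (fun u => -u), 1, fun h => absurd (Dvd.intro m' rfl) h,
        fun Q _ c hc => ?_⟩
      have h3 := hc.two m' rfl a
      have h4 : ((S2.map fun u : (ZMod m')ˣ => -u).map fun u : (ZMod m')ˣ =>
          c (iota 2 (u : ZMod m'))).sum = - c (iota 2 (y : ZMod m')) := by
        rw [hS2 Q c hc, Multiset.map_map, ← Multiset.sum_map_neg]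
        congr 1
        apply Multiset.map_congr rfl
        intro u _
        simp only [Function.comp_apply, Units.val_neg]
        rw [iota_neg rfl, hc.neg]
      rw [hhf, Multiset.map_add, Multiset.sum_add, one_smul, ← hS1 Q c hc, h4, ← ham, ← h2a']
      rw [← eq_sub_iff_add_eq] at h3
      rw [h3]; abel
    · left
      obtain ⟨j, hj⟩ := pow_of_not_PP hC hP
      apply sup_of_pow (j := j)
      have hp2 : ¬ 2 ∣ p := by
        intro h2
        have := Nat.dvd_gcd h2 (Dvd.intro m' rfl : 2 ∣ 2 * m')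
        rw [Nat.Coprime.gcd_eq_one hp] at this
        omega
      have hp3 : Odd p := Nat.odd_iff.mpr (by omega)
      have h2 : 2 ∣ (p ^ j + 1) * x := ((hp3.pow (n := j)).add_one.two_dvd).mul_right x
      have h1 : m' ∣ (p ^ j + 1) * x := by
        rw [← ZMod.natCast_eq_zero_iff]; push_cast
        linear_combination hj
      have h3 : 2 * m' ∣ (p ^ j + 1) * x :=
        Nat.Coprime.mul_dvd_of_dvd_of_dvd ((Nat.prime_two.coprime_iff_not_dvd).mpr hodd) h2 h1
      rw [← ZMod.natCast_eq_zero_iff] at h3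
      push_cast at h3
      rw [hax]
      linear_combination h3

lemma decompose {p m m' e : ℕ} (hD : Dec p m m' e) (s : Multiset (ZMod m))
    (h0 : (0 : ZMod m) ∉ s) :
    ∃ (n1 : ℕ) (S : Multiset (ZMod m')ˣ) (k : ℕ), (¬ 2 ∣ m → k = 0) ∧
      ∀ (Q : Type) [AddCommGroup Q] (c : ZMod m → Q) (κ : Q), OD c →
        (∀ a, a ≠ 0 → Sup p a → c a = κ) →
        (s.map c).sum = n1 • κ + (S.map fun u : (ZMod m')ˣ => c (iota e (u : ZMod m'))).sum +
          k • c ((m / 2 : ℕ) : ZMod m) := by
  induction s using Multiset.induction_on with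
  | empty => exact ⟨0, 0, 0, fun _ => rfl, fun Q _ c κ _ _ => by simp⟩
  | cons a s ih =>
    obtain ⟨n1, S, k, hk, h⟩ := ih (fun h => h0 (Multiset.mem_cons_of_mem h))
    have ha : a ≠ 0 := fun h' => h0 (by rw [h']; exact Multiset.mem_cons_self _ _)
    rcases hD a ha with hsup | ⟨S2, k2, hk2, hS2⟩
    · refine ⟨n1 + 1, S, k, hk, fun Q _ c κ hc hκ => ?_⟩
      rw [Multiset.map_cons, Multiset.sum_cons, h Q c κ hc hκ, hκ a ha hsup, add_nsmul, one_nsmul]
      abel
    · refine ⟨n1, S + S2, k + k2, fun h' => by rw [hk h', hk2 h'], fun Q _ c κ hc hκ => ?_⟩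
      rw [Multiset.map_cons, Multiset.sum_cons, h Q c κ hc hκ, hS2 Q c hc, Multiset.map_add,
        Multiset.sum_add, add_nsmul]
      abel

/-- The core statement. -/
theorem core_sum {p m m' e : ℕ} [NeZero m] [NeZero m'] (he : e * m' = m) (hm' : 1 < m')
    (hp : p.Coprime m) (hC : Cond p m') (hD : Dec p m m' e)
    (hno : ∀ j : ℕ, (p : ZMod m') ^ j ≠ -1) {s : Multiset (ZMod m)} (hs : IsTate p m s)
    {Q : Type} [AddCommGroup Q] {g : ZMod m → Q} (hg : OD g)
    (hgp : ∀ a, g ((p : ZMod m) * a) = g a) {κ : Q} (hκ2 : κ + κ = 0)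
    (hκ : ∀ a, a ≠ 0 → Sup p a → g a = κ) : (s.map g).sum = 0 := by
  obtain ⟨n1, S, k, hk, hS⟩ := decompose hD s hs.1
  have hdvd : m' ∣ m := Dvd.intro_left e he
  have hp' : p.Coprime m' := Nat.Coprime.coprime_dvd_right hdvd hp
  have he0 : 0 < e := Nat.pos_of_ne_zero (by rintro rfl; simp at he; exact NeZero.ne m he.symm)
  set F := orderOf (p : ZMod m) with hFdef
  have hF0 : 0 < F := order_pos hp
  have hF : (p : ZMod m') ^ F = 1 := by
    have h1 : (p : ZMod m) ^ F = 1 := H916T.pow_order p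
    have h2 := congrArg (ZMod.castHom hdvd (ZMod m')) h1
    rwa [map_pow, map_natCast, map_one] at h2
  -- the Stickelberger relations at level m'
  have hsaw : ∀ t : (ZMod m')ˣ, (S.map fun v : (ZMod m')ˣ =>
      ∑ j ∈ range F, saw ((p : ZMod m') ^ j * ((t : ZMod m') * (v : ZMod m')))).sum = 0 := by
    intro t'
    obtain ⟨t, ht⟩ := ZMod.unitsMap_surjective hdvd t'
    have h1 := hS ℤ _ 0 (od_W hp t) (fun a _ ha => ha t)
    rw [hs.W_sum hp t, smul_zero, zero_add] at h1
    have h2 : k • W p ((t : ZMod m) * ((m / 2 : ℕ) : ZMod m)) = 0 := by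
      by_cases h2m : 2 ∣ m
      · obtain ⟨d, hd⟩ := h2m
        have hmd : m / 2 = d := by rw [hd]; exact Nat.mul_div_cancel_left d (by norm_num)
        rw [hmd, W_half, smul_zero]
        linear_combination (t : ZMod m) * two_mul_half hd.symm
      · rw [hk h2m, zero_smul]
    rw [h2, add_zero] at h1
    have h3 : ∀ v : (ZMod m')ˣ, W p ((t : ZMod m) * iota e (v : ZMod m')) =
        (e : ℤ) * ∑ j ∈ range F, saw ((p : ZMod m') ^ j * ((t' : ZMod m') * (v : ZMod m'))) := by
      intro v
      unfold W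
      rw [mul_sum]
      refine sum_congr rfl fun j _ => ?_
      rw [unit_iota he, ht]
      have h4 : (p : ZMod m) ^ j * iota e ((t' : ZMod m') * (v : ZMod m')) =
          iota e ((p : ZMod m') ^ j * ((t' : ZMod m') * (v : ZMod m'))) := by
        have := iota_natMul he (p ^ j) ((t' : ZMod m') * (v : ZMod m'))
        push_cast at this
        rw [this]
      rw [h4, saw_iota he]
    simp only [h3] at h1
    rw [Multiset.sum_map_mul_left] at h1
    have he' : (e : ℤ) ≠ 0 := by exact_mod_cast he0.ne'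
    exact (mul_eq_zero.mp h1.symm).resolve_left he'
  have hbal := balanced_of_saw' hp' hF (fun χ hχ hχp => SS_one_ne_zero' hC χ hχ hχp hp') S hsaw
  have hres := balanced_sum hF0 hF hno _ S rfl hbal
  -- the two consequences
  have hg1 := hres Q (fun a => g (iota e a)) (fun a => by rw [iota_neg he, hg.neg])
    (fun a => by rw [iota_natMul he, hgp])
  have hcard := hres (ZMod 2) (fun _ => 1) (fun _ => by decide) (fun _ => rfl)
  have h1 := hS Q g κ hg hκ
  rw [hg1, add_zero] at h1
  -- sizes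
  have hsz := hS (ZMod 2) _ 1 od_size (fun a ha _ => if_neg ha)
  have hL : (s.map fun a : ZMod m => if a = 0 then (0 : ZMod 2) else 1).sum = 0 := by
    have h3 : (s.map fun a : ZMod m => if a = 0 then (0 : ZMod 2) else 1) =
        s.map fun _ => (1 : ZMod 2) := by
      apply Multiset.map_congr rfl
      intro a ha
      rw [if_neg]
      rintro rfl
      exact hs.1 ha
    rw [h3, Multiset.map_const', Multiset.sum_replicate, nsmul_eq_mul, mul_one]
    obtain ⟨r, hr⟩ := hs.2.1
    rw [hr]
    push_cast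
    exact CharTwo.add_self_eq_zero _
  have hR : (S.map fun u : (ZMod m')ˣ => if (iota e (u : ZMod m') : ZMod m) = 0
      then (0 : ZMod 2) else 1).sum = 0 := by
    rw [← hcard]
    congr 1
    apply Multiset.map_congr rfl
    intro u _
    rw [if_neg]
    intro h0
    have h4 := iota_eq_zero he h0
    have : Fact (1 < m') := ⟨hm'⟩
    exact u.ne_zero h4
  rw [hL, hR, add_zero] at hsz
  have heven : ∀ n : ℕ, (n : ZMod 2) = 0 → n • κ = 0 := by
    intro n hn
    obtain ⟨r, hr⟩ := (ZMod.natCast_eq_zero_iff_even).mp hn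
    rw [hr, add_nsmul, ← nsmul_add, hκ2, nsmul_zero]
  by_cases h2m : 2 ∣ m
  · obtain ⟨d, hd⟩ := h2m
    have hmd : m / 2 = d := by rw [hd]; exact Nat.mul_div_cancel_left d (by norm_num)
    have hdsup : Sup p (d : ZMod m) := by
      intro t
      apply W_half
      linear_combination (t : ZMod m) * two_mul_half hd.symm
    rw [hmd, hκ _ (half_ne_zero hd.symm) hdsup, ← add_nsmul] at h1
    rw [hmd, if_neg (half_ne_zero hd.symm), nsmul_eq_mul, nsmul_eq_mul, mul_one, mul_one] at hsz
    rw [h1]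
    apply heven
    push_cast
    exact hsz.symm
  · rw [hk h2m, zero_smul, add_zero] at h1 hsz
    rw [h1]
    apply heven
    rw [nsmul_eq_mul, mul_one] at hsz
    exact hsz.symm

end Pool.Agent.H916U
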