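import Pool.Agent.H916T.Main

/-!
The invariant function `g` with its two-term property.
-/

namespace Pool.Agent.H916U

open Finset Pool.Agent.H916R2 Pool.Agent.H916T

lemma sum_range_period {R : Type*} [AddCommMonoid R] (f : ℕ → R) (n : ℕ)
    (hf : ∀ j, f (j + n) = f j) (r : ℕ) :
    ∑ j ∈ range (r * n), f j = r • ∑ j ∈ range n, f j := by
  have hper : ∀ k j, f (k * n + j) = f j := by
    intro k
    induction k with
    | zero => intro j; simp
    | succ k ih => intro j; rw [show (k + 1) * n + j = (k * n + j) + n by ring, hf, ih]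
  induction r with
  | zero => simp
  | succ r ih =>
    rw [add_mul, one_mul, sum_range_add, ih, succ_nsmul]
    congr 1
    exact sum_congr rfl fun j _ => hper r j

/-- the averaged sawtooth at different levels -/
lemma W_iota {k m0 m p : ℕ} [NeZero m0] [NeZero m] (h : k * m0 = m) :
    ∃ r : ℕ, ∀ x : ZMod m0, W p (iota k x : ZMod m) = (k : ℤ) * (r : ℤ) * W p x := by
  have hdvd : m0 ∣ m := Dvd.intro_left k h
  have h1 : orderOf (p : ZMod m0) ∣ orderOf (p : ZMod m) := by
    apply orderOf_dvd_of_pow_eq_one
    have h2 := congrArg (ZMod.castHom hdvd (ZMod m0)) (H916T.pow_order (m := m) p)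
    rwa [map_pow, map_natCast, map_one] at h2
  obtain ⟨r, hr⟩ := h1
  refine ⟨r, fun x => ?_⟩
  unfold W
  have h3 : ∀ j, saw ((p : ZMod m) ^ j * iota k x) = (k : ℤ) * saw ((p : ZMod m0) ^ j * x) := by
    intro j
    have h4 := iota_natMul h (p ^ j) x
    push_cast at h4
    rw [← h4, saw_iota h]
  simp only [h3]
  rw [← mul_sum, hr, mul_comm (orderOf (p : ZMod m0)) r, sum_range_period, nsmul_eq_mul]
  · ring
  · intro j
    rw [pow_add, H916T.pow_order, mul_one]

variable {m N p f : ℕ} {Q : Type*} [AddCommGroup Q] {c : ZMod (N * m) → Q}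

lemma exists_g2 [NeZero (N * m)] (hN : p ^ f = N + 1) (hp1 : 1 < p)
    (hmN : m ∣ N) (hp : p.Coprime (N * m))
    (hneg : ∀ a, c (-a) = - c a) (hhalf : ∀ a, a + a = 0 → c a = 0)
    (h4 : ∀ s, SurfaceTate p (N * m) s → (s.map c).sum = 0)
    (hodd : ∀ q d : ℕ, q.Prime → q ≠ 2 → q * d = m → ∀ a : ZMod m,
      ∑ i ∈ range q, c (iota N (a + (i : ZMod m) * (d : ZMod m))) = c (iota N ((q : ZMod m) * a))) :
    ∃ g : ZMod m → Q, OD g ∧ (∀ a, g ((p : ZMod m) * a) = g a) ∧
      (∀ a b, a ≠ 0 → b ≠ 0 →
        (∀ t : (ZMod m)ˣ, W p ((t : ZMod m) * a) + W p ((t : ZMod m) * b) = 0) → g a + g b = 0) ∧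
      ∀ s : Multiset (ZMod m), s.sum = 0 →
        (s.map fun a => c (iota N a)).sum = (s.map g).sum := by
  have hm0 : NeZero m := ⟨fun h => NeZero.ne (N * m) (by rw [h, mul_zero])⟩
  obtain ⟨D, hD⟩ := exists_D (c := c) hN hmN hp hneg h4
  refine ⟨fun a => c (iota N a) - D a, ⟨?_, ?_, ?_, ?_⟩, ?_, ?_, ?_⟩
  · intro a
    rw [iota_neg rfl, hneg, map_neg]; abel
  · rw [iota_zero, hhalf 0 (by simp), map_zero, sub_zero]
  · intro q d hq hq2 hqd a
    rw [sum_sub_distrib, hodd q d hq hq2 hqd, ← map_sum, sum_coset _ hqd]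
    intro h
    exact hq2 ((Nat.prime_dvd_prime_iff_eq Nat.prime_two hq).mp h).symm
  · intro d hd a
    have hd' : 2 * (N * d) = N * m := by rw [← hd]; ring
    have h2 : (iota N (2 * a) : ZMod (N * m)) = 2 * iota N a := by
      have := iota_natMul (k := N) (m := N * m) rfl 2 a
      simpa using this
    have h3 : (iota N (d : ZMod m) : ZMod (N * m)) = ((N * d : ℕ) : ZMod (N * m)) :=
      iota_natCast rfl d
    have hdd : ((N * d : ℕ) : ZMod (N * m)) + ((N * d : ℕ) : ZMod (N * m)) = 0 := by
      have : ((2 * (N * d) : ℕ) : ZMod (N * m)) = 0 := by rw [hd']; simp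
      rw [← this]; push_cast; ring
    have key : c (iota N a) + c (iota N (a + (d : ZMod m))) = c (iota N (2 * a)) := by
      rw [iota_add rfl, h3, h2]
      by_cases ha : 2 * (iota N a : ZMod (N * m)) = 0
      · rw [ha, hhalf _ (by rw [← two_mul]; exact ha), hhalf _ (by
          linear_combination ha + hdd), hhalf 0 (by simp), add_zero]
      · have h := h4 _ (surface_standardTwo hp hd' ha)
        simp only [Multiset.insert_eq_cons, Multiset.map_cons, Multiset.map_singleton,
          Multiset.sum_cons, Multiset.sum_singleton] at h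
        rw [hhalf _ hdd, hneg, add_zero] at h
        rw [← sub_eq_zero, ← h]
        abel
    have e1 : D (a + (d : ZMod m)) = D a + D (d : ZMod m) := map_add D _ _
    have e2 : D (2 * a) = D a + D a := by rw [two_mul, map_add]
    have e3 : c (iota N (d : ZMod m)) = 0 := by
      rw [h3]; exact hhalf _ hdd
    rw [e1, e2, e3, ← key]
    abel
  · intro a
    have e1 : (iota N ((p : ZMod m) * a) : ZMod (N * m)) = (p : ZMod (N * m)) * iota N a :=
      iota_natMul rfl p a
    have h := hD (iota N a) 1 (a - (p : ZMod m) * a) (by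
      rw [sub_eq_add_neg a, iota_add rfl, iota_neg rfl, e1, pow_one]; ring)
    rw [pow_one, ← e1, map_sub] at h
    have : c (iota N a) - D a - (c (iota N ((p : ZMod m) * a)) - D ((p : ZMod m) * a)) = 0 := by
      calc _ = (c (iota N a) - c (iota N ((p : ZMod m) * a))) - (D a - D ((p : ZMod m) * a)) := by
            abel
        _ = 0 := by rw [h, sub_self]
    exact (sub_eq_zero.mp this).symm
  · intro a b ha hb hW
    change c (iota N a) - D a + (c (iota N b) - D b) = 0
    by_cases hab : a + b = 0
    · have hb' : b = -a := by linear_combination hab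
      rw [hb', iota_neg rfl, hneg, map_neg]; abel
    · obtain ⟨c0, hc0⟩ : p - 1 ∣ N := by
        have h1 : p - 1 ∣ p ^ f - 1 := by
          have := Nat.sub_dvd_pow_sub_pow p 1 f
          rwa [one_pow] at this
        rwa [hN, Nat.add_sub_cancel] at h1
      have hc0' : (N : ZMod (N * m)) = ((p : ZMod (N * m)) - 1) * c0 := by
        have h1 := congrArg (Nat.cast : ℕ → ZMod (N * m)) hc0
        rw [Nat.cast_mul, Nat.cast_sub hp1.le, Nat.cast_one] at h1
        exact h1
      set y : ZMod (N * m) := (c0 : ZMod (N * m)) * ((a + b).val : ZMod (N * m)) with hy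
      have hyi : y - (p : ZMod (N * m)) ^ 1 * y = iota N (-(a + b)) := by
        rw [iota_neg rfl]
        unfold iota
        push_cast
        rw [pow_one, hy]
        linear_combination ((a + b).val : ZMod (N * m)) * hc0'
      have hne : (iota N (-(a + b)) : ZMod (N * m)) ≠ 0 := by
        intro h
        have := iota_eq_zero rfl h
        exact hab (neg_eq_zero.mp this)
      have hy0 : y ≠ 0 := by
        intro h
        rw [h, mul_zero, sub_zero] at hyi
        exact hne hyi.symm
      have hpy0 : (p : ZMod (N * m)) ^ 1 * y ≠ 0 := by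
        intro h
        have hu := (H916T.isUnit_p hp).pow 1
        exact hy0 ((hu.mul_right_eq_zero).mp h)
      have hia : (iota N a : ZMod (N * m)) ≠ 0 := fun h => ha (iota_eq_zero rfl h)
      have hib : (iota N b : ZMod (N * m)) ≠ 0 := fun h => hb (iota_eq_zero rfl h)
      obtain ⟨r, hr⟩ := W_iota (k := N) (m0 := m) (m := N * m) (p := p) rfl
      have hs : SurfaceTate p (N * m) {iota N a, iota N b, y, -((p : ZMod (N * m)) ^ 1 * y)} := by
        apply surface_of hp hia hib hy0 (neg_ne_zero.mpr hpy0)
        · have h1 : (iota N (-(a + b)) : ZMod (N * m)) = -(iota N a + iota N b) := by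
            rw [iota_neg rfl, iota_add rfl]
          rw [h1] at hyi
          linear_combination hyi
        · intro t
          have h1 : (t : ZMod (N * m)) * ((p : ZMod (N * m)) ^ 1 * y) =
              (p : ZMod (N * m)) ^ 1 * ((t : ZMod (N * m)) * y) := by ring
          rw [mul_neg, W_neg, h1, W_pow_mul, unit_iota rfl, unit_iota rfl, hr, hr]
          have h2 := hW (ZMod.unitsMap (Dvd.intro_left N rfl : m ∣ N * m) t)
          linear_combination (N : ℤ) * (r : ℤ) * h2
      have h := h4 _ hs
      simp only [Multiset.insert_eq_cons, Multiset.map_cons, Multiset.map_singleton,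
        Multiset.sum_cons, Multiset.sum_singleton, hneg] at h
      have h5 := hD y 1 (-(a + b)) hyi
      have h6 : c y - c ((p : ZMod (N * m)) ^ 1 * y) = -(D a + D b) := by
        rw [h5, map_neg, map_add]
      have h7 : c (iota N a) + c (iota N b) + (c y - c ((p : ZMod (N * m)) ^ 1 * y)) = 0 := by
        rw [← h]; abel
      rw [h6] at h7
      rw [← h7]; abel
  · intro s hs
    have h1 : (s.map fun a => c (iota N a) - D a).sum =
        (s.map fun a => c (iota N a)).sum - (s.map fun a => D a).sum := Multiset.sum_map_sub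
    have h2 : (s.map fun a => D a).sum = D s.sum := (map_multiset_sum D s).symm
    rw [h1, h2, hs, map_zero, sub_zero]

end Pool.Agent.H916U
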