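import Pool.Agent.H916U.GTwo

/-!
Generation of the values of odd distributions by the values at units, for the elements whose order
is divisible by all primes dividing the level.
-/

namespace Pool.Agent.H916U

open Finset Pool.Agent.H916R2 Pool.Agent.H916T

/-- no full primary part of `m` divides `x` -/
def PP (m x : ℕ) : Prop := ∀ q : ℕ, q.Prime → q ∣ m → ¬ (ordProj[q] m ∣ x)

lemma PP_shift {m q d y x : ℕ} (hm : 0 < m) (hq : q.Prime) (hqd : q * d = m) (hx : x = q * y)
    (hP : PP m x) (i : ℕ) : PP m (y + i * d) := by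
  intro r hr hrm hR
  by_cases hrq : r = q
  · subst hrq
    have he : 1 ≤ m.factorization r := (hr.dvd_iff_one_le_factorization hm.ne').mp hrm
    obtain ⟨e, he'⟩ : ∃ e, m.factorization r = e + 1 := ⟨m.factorization r - 1, by omega⟩
    have h1 : r ^ e ∣ d := by
      have h2 : r ^ (e + 1) ∣ r * d := by
        rw [hqd, ← he']; exact Nat.ordProj_dvd m r
      rw [pow_succ'] at h2
      exact Nat.dvd_of_mul_dvd_mul_left hr.pos h2
    have h3 : r ^ e ∣ y + i * d := by
      apply dvd_trans _ hR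
      rw [he']; exact pow_dvd_pow r (Nat.le_succ e)
    have h4 : r ^ e ∣ y := (Nat.dvd_add_left (h1.mul_left i)).mp h3
    apply hP r hr hrm
    rw [he', hx, pow_succ']
    exact Nat.mul_dvd_mul_left r h4
  · have hcop : (ordProj[r] m).Coprime q := by
      apply Nat.Coprime.pow_left
      exact (Nat.coprime_primes hr hq).mpr hrq
    have h1 : ordProj[r] m ∣ d := by
      have h2 : ordProj[r] m ∣ q * d := by rw [hqd]; exact Nat.ordProj_dvd m r
      exact hcop.dvd_of_dvd_mul_left h2
    have h4 : ordProj[r] m ∣ y := (Nat.dvd_add_left (h1.mul_left i)).mp hR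
    apply hP r hr hrm
    rw [hx]; exact h4.mul_left q

lemma gcd_shift {m q d y x : ℕ} (hm : 0 < m) (hq : q.Prime) (hqd : q * d = m) (hx : x = q * y)
    (hP : PP m x) (i : ℕ) : Nat.gcd (y + i * d) m < Nat.gcd x m := by
  set h := Nat.gcd (y + i * d) m with hh
  have hhm : h ∣ m := Nat.gcd_dvd_right _ _
  have hhx : h ∣ y + i * d := Nat.gcd_dvd_left _ _
  have hh0 : 0 < h := Nat.gcd_pos_of_pos_right _ hm
  have hPi := PP_shift hm hq hqd hx hP i
  have hqm : q ∣ m := Dvd.intro d hqd
  have hhd : h ∣ d := by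
    have hsplit : ordProj[q] h * ordCompl[q] h = h := Nat.ordProj_mul_ordCompl_eq_self h q
    have hcopc : Nat.Coprime q (ordCompl[q] h) := Nat.coprime_ordCompl hq hh0.ne'
    have hc1 : ordCompl[q] h ∣ d := by
      have h2 : ordCompl[q] h ∣ q * d := by
        rw [hqd]; exact dvd_trans (Nat.ordCompl_dvd h q) hhm
      exact hcopc.symm.dvd_of_dvd_mul_left h2
    have hlt : h.factorization q < m.factorization q := by
      by_contra hcon
      push Not at hcon
      apply hPi q hq hqm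
      apply dvd_trans _ hhx
      exact dvd_trans (pow_dvd_pow q hcon) (Nat.ordProj_dvd h q)
    have hc2 : ordProj[q] h ∣ d := by
      have h3 : q * ordProj[q] h ∣ q * d := by
        rw [hqd, ← pow_succ']
        exact dvd_trans (pow_dvd_pow q hlt) (Nat.ordProj_dvd m q)
      exact Nat.dvd_of_mul_dvd_mul_left hq.pos h3
    rw [← hsplit]
    exact Nat.Coprime.mul_dvd_of_dvd_of_dvd (hcopc.pow_left _) hc2 hc1
  have hhy : h ∣ y := (Nat.dvd_add_left (hhd.mul_left i)).mp hhx
  have h1 : q * h ∣ Nat.gcd x m := by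
    apply Nat.dvd_gcd
    · rw [hx]; exact Nat.mul_dvd_mul_left q hhy
    · rw [← hqd]; exact Nat.mul_dvd_mul_left q hhd
  have h2 := Nat.le_of_dvd (Nat.gcd_pos_of_pos_right _ hm) h1
  have := hq.two_le
  nlinarith

lemma map_sum_multiset {m : ℕ} {Q : Type*} [AddCommGroup Q] (c : ZMod m → Q)
    (S : ℕ → Multiset (ZMod m)ˣ) (T : Finset ℕ) :
    ((∑ i ∈ T, S i).map fun u : (ZMod m)ˣ => c (u : ZMod m)).sum =
      ∑ i ∈ T, ((S i).map fun u : (ZMod m)ˣ => c (u : ZMod m)).sum := by
  induction T using Finset.induction_on with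
  | empty => simp
  | insert a T ha ih =>
    rw [Finset.sum_insert ha, Finset.sum_insert ha, Multiset.map_add, Multiset.sum_add, ih]

theorem gen_units {m : ℕ} (hm : 0 < m) : ∀ (n x : ℕ), Nat.gcd x m ≤ n → PP m x →
    ∃ (S : Multiset (ZMod m)ˣ) (k : ℕ), (¬ 2 ∣ m → k = 0) ∧
      ∀ (Q : Type) [AddCommGroup Q] (c : ZMod m → Q), OD c →
        c (x : ZMod m) = (S.map fun u : (ZMod m)ˣ => c (u : ZMod m)).sum +
          k • c ((m / 2 : ℕ) : ZMod m) := by
  intro n
  induction n with
  | zero =>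
    intro x hx
    have := Nat.gcd_pos_of_pos_right x hm
    omega
  | succ n ih =>
  intro x hx hP
  by_cases hcop : Nat.Coprime x m
  · refine ⟨{ZMod.unitOfCoprime x hcop}, 0, fun _ => rfl, ?_⟩
    intro Q _ c hc
    simp
  · obtain ⟨q, hq, hqx, hqm⟩ := Nat.Prime.not_coprime_iff_dvd.mp hcop
    obtain ⟨y, hy⟩ := hqx
    obtain ⟨d, hd⟩ := hqm
    have hqd : q * d = m := hd.symm
    choose S k hk hS using fun i : ℕ =>
      ih (y + i * d) (by have := gcd_shift hm hq hqd hy hP i; omega) (PP_shift hm hq hqd hy hP i)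
    have hcast : ∀ i : ℕ, (y : ZMod m) + (i : ZMod m) * (d : ZMod m) =
        ((y + i * d : ℕ) : ZMod m) := by
      intro i; push_cast; rfl
    have hxc : (x : ZMod m) = (q : ZMod m) * (y : ZMod m) := by rw [hy]; push_cast; rfl
    by_cases h2 : q = 2
    · subst h2
      refine ⟨S 0 + S 1, k 0 + k 1 + 1, fun h => absurd (Dvd.intro d hqd) h, ?_⟩
      intro Q _ c hc
      have hhf : m / 2 = d := by rw [← hqd]; exact Nat.mul_div_cancel_left d (by norm_num)
      have h3 := hc.two d hqd (y : ZMod m)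
      have hh := hc.half hqd
      have e0 := hS 0 Q c hc
      have e1 := hS 1 Q c hc
      rw [zero_mul, add_zero] at e0
      have hc1 := hcast 1
      rw [Nat.cast_one, one_mul] at hc1
      rw [← hc1] at e1
      rw [hhf] at e0 e1
      rw [hhf, Multiset.map_add, Multiset.sum_add, hxc]
      have h5 : c (((2 : ℕ) : ZMod m) * (y : ZMod m)) = c (y : ZMod m) +
          c ((y : ZMod m) + (d : ZMod m)) + c (d : ZMod m) := by
        rw [h3, add_assoc, hh, add_zero]
        norm_num
      rw [h5, e0, e1, add_nsmul, add_nsmul, one_nsmul]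
      abel
    · refine ⟨∑ i ∈ range q, S i, ∑ i ∈ range q, k i, ?_, ?_⟩
      · intro h; exact sum_eq_zero fun i _ => hk i h
      · intro Q _ c hc
        rw [map_sum_multiset, hxc, ← hc.odd q d hq h2 hqd, Finset.sum_smul, ← sum_add_distrib]
        refine sum_congr rfl fun i _ => ?_
        rw [hcast, hS i Q c hc]

/-- supersingular elements -/
def Sup (p : ℕ) {m : ℕ} (a : ZMod m) : Prop := ∀ t : (ZMod m)ˣ, W p ((t : ZMod m) * a) = 0

lemma sup_of_pow {m p j : ℕ} [NeZero m] {a : ZMod m} (h : (p : ZMod m) ^ j * a = -a) :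
    Sup p a := by
  intro t
  have h1 := W_pow_mul p j ((t : ZMod m) * a)
  have h2 : (p : ZMod m) ^ j * ((t : ZMod m) * a) = -((t : ZMod m) * a) := by
    linear_combination (t : ZMod m) * h
  rw [h2, W_neg] at h1
  omega

/-- for each prime `q ∣ m`, `-1` is a power of `p` modulo the prime-to-`q` part of `m` -/
def Cond (p m : ℕ) : Prop :=
  ∀ q : ℕ, q.Prime → q ∣ m → ∃ j : ℕ, (p : ZMod (ordCompl[q] m)) ^ j = -1

lemma pow_of_not_PP {m p x : ℕ} [NeZero m] (hC : Cond p m) (hx : ¬ PP m x) :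
    ∃ j : ℕ, (p : ZMod m) ^ j * (x : ZMod m) = -(x : ZMod m) := by
  unfold PP at hx
  push Not at hx
  obtain ⟨q, hq, hqm, hR⟩ := hx
  obtain ⟨j, hj⟩ := hC q hq hqm
  refine ⟨j, ?_⟩
  obtain ⟨y, hy⟩ := hR
  have h1 : ordCompl[q] m ∣ p ^ j + 1 := by
    rw [← ZMod.natCast_eq_zero_iff]
    push_cast
    rw [hj]; ring
  obtain ⟨z, hz⟩ := h1
  have h2 : (((p ^ j + 1) * x : ℕ) : ZMod m) = 0 := by
    rw [ZMod.natCast_eq_zero_iff, hz, hy]
    have h3 : ordProj[q] m * ordCompl[q] m = m := Nat.ordProj_mul_ordCompl_eq_self m q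
    refine ⟨z * y, ?_⟩
    calc ordCompl[q] m * z * (ordProj[q] m * y) = (ordProj[q] m * ordCompl[q] m) * (z * y) := by
          ring
      _ = _ := by rw [h3]
  push_cast at h2
  linear_combination h2

end Pool.Agent.H916U
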